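import Mathlib

/-!
# Signed sums over permutations of `Fin n × Fin 2` (unnormalised Pfaffians)
-/

set_option autoImplicit false

namespace Pool.Agent.Helper26_Pf

open Equiv Equiv.Perm Finset

/-- The permutation `(i, b) ↦ (π i, ε i b)`. -/
def wr {n : ℕ} (x : Perm (Fin n) × (Fin n → Perm (Fin 2))) : Perm (Fin n × Fin 2) :=
  (prodCongrLeft (fun _ : Fin 2 => x.1) : Perm (Fin n × Fin 2)) * prodCongrRight x.2

theorem wr_apply {n : ℕ} (x : Perm (Fin n) × (Fin n → Perm (Fin 2))) (i : Fin n) (b : Fin 2) :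
    wr x (i, b) = (x.1 i, x.2 i b) := rfl

theorem wr_injective {n : ℕ} : Function.Injective (wr (n := n)) := by
  rintro ⟨π, ε⟩ ⟨π', ε'⟩ h
  have h1 : ∀ i b, (π i, ε i b) = (π' i, ε' i b) := fun i b => by
    rw [← wr_apply (π, ε), ← wr_apply (π', ε'), h]
  refine Prod.ext ?_ ?_
  · ext i
    exact congrArg Fin.val (congrArg Prod.fst (h1 i 0))
  · funext i
    ext b
    exact congrArg Fin.val (congrArg Prod.snd (h1 i b))

theorem sign_wr {n : ℕ} (x : Perm (Fin n) × (Fin n → Perm (Fin 2))) :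
    sign (wr x) = ∏ i, sign (x.2 i) := by
  unfold wr
  rw [Perm.sign_mul, sign_prodCongrLeft, sign_prodCongrRight]
  simp

theorem mem_range_wr {n : ℕ} (σ : Perm (Fin n × Fin 2))
    (h : ∀ i, (σ (i, 0)).1 = (σ (i, 1)).1) : ∃ x, wr x = σ := by
  classical
  have hc : ∀ i b, (σ (i, b)).1 = (σ (i, 0)).1 := by
    intro i b
    fin_cases b
    · rfl
    · exact (h i).symm
  have hsurj : Function.Surjective (fun i : Fin n => (σ (i, 0)).1) := by
    intro k
    obtain ⟨⟨i, b⟩, hib⟩ := σ.surjective (k, 0)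
    refine ⟨i, ?_⟩
    have := hc i b
    rw [hib] at this
    exact this.symm
  have hbij : Function.Bijective (fun i : Fin n => (σ (i, 0)).1) :=
    ⟨Finite.injective_iff_surjective.2 hsurj, hsurj⟩
  have hinj2 : ∀ i : Fin n, Function.Injective (fun b : Fin 2 => (σ (i, b)).2) := by
    intro i b b' hb
    have : σ (i, b) = σ (i, b') := Prod.ext ((hc i b).trans (hc i b').symm) hb
    exact congrArg Prod.snd (σ.injective this)
  refine ⟨(Equiv.ofBijective _ hbij,
    fun i => Equiv.ofBijective _ ⟨hinj2 i, Finite.injective_iff_surjective.1 (hinj2 i)⟩), ?_⟩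
  ext ⟨i, b⟩ : 1
  rw [wr_apply]
  exact Prod.ext (hc i b).symm rfl

theorem sum_block {R : Type*} [CommRing R] (n : ℕ) (c : Fin n → R)
    (D : Fin n × Fin 2 → Fin n × Fin 2 → R)
    (h01 : ∀ k l, D (k, 0) (l, 1) = if k = l then c k else 0)
    (h10 : ∀ k l, D (l, 1) (k, 0) = if k = l then - c k else 0)
    (h00 : ∀ k l, D (k, 0) (l, 0) = 0)
    (h11 : ∀ k l, D (k, 1) (l, 1) = 0) :
    ∑ σ : Perm (Fin n × Fin 2), ((sign σ : ℤ) : R) * ∏ i : Fin n, D (σ (i, 0)) (σ (i, 1)) =
      (2 ^ n * n.factorial : ℕ) * ∏ i, c i := by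
  classical
  have hne : ∀ a b : Fin n × Fin 2, a.1 ≠ b.1 → D a b = 0 := by
    rintro ⟨k, x⟩ ⟨l, y⟩ hkl
    simp only at hkl
    fin_cases x <;> fin_cases y
    · exact h00 k l
    · show D (k, 0) (l, 1) = 0
      rw [h01, if_neg hkl]
    · show D (k, 1) (l, 0) = 0
      rw [h10, if_neg (Ne.symm hkl)]
    · exact h11 k l
  have key : ∑ x : Perm (Fin n) × (Fin n → Perm (Fin 2)), ∏ i, c i =
      ∑ σ : Perm (Fin n × Fin 2), ((sign σ : ℤ) : R) *
        ∏ i : Fin n, D (σ (i, 0)) (σ (i, 1)) := by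
    refine Finset.sum_of_injOn wr (wr_injective.injOn) (fun x _ => Finset.mem_coe.2 (mem_univ _)) ?_ ?_
    · intro σ _ hσ
      by_cases h : ∀ i, (σ (i, 0)).1 = (σ (i, 1)).1
      · obtain ⟨x, hx⟩ := mem_range_wr σ h
        exact absurd ⟨x, by simp, hx⟩ hσ
      · push Not at h
        obtain ⟨i, hi⟩ := h
        rw [Finset.prod_eq_zero (mem_univ i) (hne _ _ hi), mul_zero]
    · intro x _
      rw [sign_wr]
      have h1 : ∀ i : Fin n, D (wr x (i, 0)) (wr x (i, 1)) = ((sign (x.2 i) : ℤ) : R) * c (x.1 i) := by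
        intro i
        rw [wr_apply, wr_apply]
        generalize x.2 i = τ
        have hτ : τ = 1 ∨ τ = Equiv.swap 0 1 := by
          revert τ; decide
        rcases hτ with rfl | rfl
        · simp [h01]
        · have e0 : (Equiv.swap (0 : Fin 2) 1) 0 = 1 := by decide
          have e1 : (Equiv.swap (0 : Fin 2) 1) 1 = 0 := by decide
          rw [e0, e1, h10]
          simp
      rw [Finset.prod_congr rfl (fun i _ => h1 i), Finset.prod_mul_distrib]
      have h2 : ∏ i, c (x.1 i) = ∏ i, c i := Equiv.prod_comp x.1 c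
      rw [h2, ← mul_assoc]
      have h3 : (((∏ i, sign (x.2 i) : ℤˣ) : ℤ) : R) * ∏ i, ((sign (x.2 i) : ℤ) : R) = 1 := by
        rw [Units.coe_prod, Int.cast_prod, ← Finset.prod_mul_distrib]
        refine Finset.prod_eq_one (fun i _ => ?_)
        rw [← Int.cast_mul, ← Units.val_mul, Int.units_mul_self]
        simp
      rw [h3, one_mul]
  rw [← key, Finset.sum_const, Finset.card_univ, Fintype.card_prod, Fintype.card_perm,
    Fintype.card_fun, Fintype.card_perm]
  simp only [Fintype.card_fin, nsmul_eq_mul]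
  norm_num
  ring

/-- The multilinear map `v ↦ ∏ i, B (v (i, 0)) (v (i, 1))`. -/
noncomputable def mm {R M : Type*} [CommRing R] [AddCommGroup M] [Module R M] (n : ℕ)
    (B : M →ₗ[R] M →ₗ[R] R) : MultilinearMap R (fun _ : Fin n × Fin 2 => M) R where
  toFun v := ∏ i, B (v (i, 0)) (v (i, 1))
  map_update_add' := by
    intro _ v j x y
    obtain ⟨i0, b⟩ := j
    have e : ∀ z : M, (∏ i, B (Function.update v (i0, b) z (i, 0)) (Function.update v (i0, b) z (i, 1)))
        = B (Function.update v (i0, b) z (i0, 0)) (Function.update v (i0, b) z (i0, 1)) *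
          ∏ i ∈ univ.erase i0, B (v (i, 0)) (v (i, 1)) := by
      intro z
      rw [← Finset.mul_prod_erase univ _ (mem_univ i0)]
      congr 1
      refine Finset.prod_congr rfl (fun i hi => ?_)
      have hne : i ≠ i0 := Finset.ne_of_mem_erase hi
      have h0 : ∀ c : Fin 2, (i, c) ≠ (i0, b) := fun c h => hne (congrArg Prod.fst h)
      rw [Function.update_of_ne (h0 0), Function.update_of_ne (h0 1)]
    convert_to (∏ i, B (Function.update v (i0, b) (x + y) (i, 0))
        (Function.update v (i0, b) (x + y) (i, 1))) =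
      (∏ i, B (Function.update v (i0, b) x (i, 0)) (Function.update v (i0, b) x (i, 1))) +
      (∏ i, B (Function.update v (i0, b) y (i, 0)) (Function.update v (i0, b) y (i, 1))) using 1
    rw [e, e, e, ← add_mul]
    congr 1
    fin_cases b <;> simp
  map_update_smul' := by
    intro _ v j c x
    obtain ⟨i0, b⟩ := j
    have e : ∀ z : M, (∏ i, B (Function.update v (i0, b) z (i, 0)) (Function.update v (i0, b) z (i, 1)))
        = B (Function.update v (i0, b) z (i0, 0)) (Function.update v (i0, b) z (i0, 1)) *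
          ∏ i ∈ univ.erase i0, B (v (i, 0)) (v (i, 1)) := by
      intro z
      rw [← Finset.mul_prod_erase univ _ (mem_univ i0)]
      congr 1
      refine Finset.prod_congr rfl (fun i hi => ?_)
      have hne : i ≠ i0 := Finset.ne_of_mem_erase hi
      have h0 : ∀ c : Fin 2, (i, c) ≠ (i0, b) := fun c h => hne (congrArg Prod.fst h)
      rw [Function.update_of_ne (h0 0), Function.update_of_ne (h0 1)]
    convert_to (∏ i, B (Function.update v (i0, b) (c • x) (i, 0))
        (Function.update v (i0, b) (c • x) (i, 1))) =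
      c • (∏ i, B (Function.update v (i0, b) x (i, 0)) (Function.update v (i0, b) x (i, 1))) using 1
    rw [e, e, smul_eq_mul, ← mul_assoc]
    congr 1
    fin_cases b <;> simp

/-- The unnormalised Pfaffian of a family of vectors. -/
noncomputable def ps {R M : Type*} [CommRing R] [AddCommGroup M] [Module R M] (n : ℕ)
    (B : M →ₗ[R] M →ₗ[R] R) (v : Fin n × Fin 2 → M) : R :=
  ∑ σ : Perm (Fin n × Fin 2), ((sign σ : ℤ) : R) * ∏ i : Fin n, B (v (σ (i, 0))) (v (σ (i, 1)))

theorem ps_eq_alt {R M : Type*} [CommRing R] [AddCommGroup M] [Module R M] (n : ℕ)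
    (B : M →ₗ[R] M →ₗ[R] R) (v : Fin n × Fin 2 → M) :
    ps n B v = MultilinearMap.alternatization (mm n B) v := by
  rw [MultilinearMap.alternatization_apply]
  unfold ps
  refine Finset.sum_congr rfl (fun σ _ => ?_)
  rw [Units.smul_def, zsmul_eq_mul]
  rfl

end Pool.Agent.Helper26_Pf
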