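import Pool.Agent.Helper26_Pf.Functional

/-!
# The two Pfaffian evaluations
-/

set_option autoImplicit false

namespace Pool.Agent.Helper26_Pf

open Finset Polynomial

/-- The weight `l (1 - t z^{-2})`. -/
noncomputable def wt {K : Type*} [CommRing K] (t l : K) : LaurentPolynomial K :=
  (mo 1 1 - mo t (-1)) * mo l (-1)

theorem aeval_ups_wt {K : Type*} [CommRing K] (c t l : K) (k : ℕ) :
    Polynomial.aeval (xx c t) (ups c t k) * wt t l = mo l k - mo (l * t ^ (k + 1)) (-(k + 2)) := by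
  unfold wt
  rw [← mul_assoc, (aeval_ups c t k).1, sub_mul, mo_mul, mo_mul]
  congr 2 <;> ring

theorem semi_P {K : Type*} [CommRing K] (c t l : K) (i j : ℕ) :
    Lf c t (wt t l) (tau c t (i + 1) * ups c t j) =
      (if j = i + 1 then l * t ^ (i + 1) else 0) - (if i = j + 1 then l * t ^ (j + 1) else 0) := by
  rw [Lf_apply, map_mul (Polynomial.aeval (xx c t)), mul_assoc, aeval_ups_wt,
    (aeval_tau c t i).2]
  simp only [add_mul, mul_sub, mo_mul, map_add, map_sub, ct_mo]
  have a1 : ¬ ((i : ℤ) + 1 + j = 0) := by omega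
  have a2 : ¬ (-((i : ℤ) + 1) + -((j : ℤ) + 2) = 0) := by omega
  rw [if_neg a1, if_neg a2]
  have b1 : ((i : ℤ) + 1 + -((j : ℤ) + 2) = 0) ↔ i = j + 1 := by omega
  have b2 : (-((i : ℤ) + 1) + (j : ℤ) = 0) ↔ j = i + 1 := by omega
  simp only [b1, b2]
  by_cases h1 : i = j + 1
  · have h2 : ¬ (j = i + 1) := by omega
    simp only [if_pos h1, if_neg h2]
    ring
  · by_cases h2 : j = i + 1
    · simp only [if_neg h1, if_pos h2]
      ring
    · simp only [if_neg h1, if_neg h2]
      ring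

theorem semi_one {K : Type*} [CommRing K] (c t l : K) (j : ℕ) :
    Lf c t (wt t l) (ups c t j) = if j = 0 then l else 0 := by
  rw [Lf_apply, aeval_ups_wt]
  simp only [map_sub, ct_mo]
  have a2 : ¬ (-((j : ℤ) + 2) = 0) := by omega
  rw [if_neg a2]
  simp

theorem bf_semi {K : Type*} [CommRing K] (c t l : K) (i j : ℕ) (hij : i < j) :
    bf (Lf c t (wt t l)) (tau c t (i + 1)) (tau c t (j + 1)) =
      if j = i + 1 then (i + j + 2) * (l * t ^ (i + 1)) else 0 := by
  rw [bf_apply, (deriv_tau c t i).1, (deriv_tau c t j).1]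
  have e : tau c t (i + 1) * (C ((j : K) + 1) * ups c t j) -
      C ((i : K) + 1) * ups c t i * tau c t (j + 1) =
      ((j : K) + 1) • (tau c t (i + 1) * ups c t j) -
        ((i : K) + 1) • (tau c t (j + 1) * ups c t i) := by
    rw [smul_eq_C_mul, smul_eq_C_mul]
    ring
  rw [e, map_sub, map_smul, map_smul, semi_P, semi_P]
  have h1 : ¬ (i = j + 1) := by omega
  simp only [if_neg h1, smul_eq_mul]
  by_cases h2 : j = i + 1
  · simp only [if_pos h2]
    ring
  · simp only [if_neg h2]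
    ring

/-- The basis for the semicircle functional. -/
noncomputable def qs {K : Type*} [CommRing K] (c t : K) : ℕ → K[X]
  | 0 => 1
  | (k + 1) => tau c t (k + 1)

theorem bf_semi0 {K : Type*} [CommRing K] (c t l : K) (j : ℕ) :
    bf (Lf c t (wt t l)) 1 (tau c t (j + 1)) = if j = 0 then l else 0 := by
  rw [bf_apply, (deriv_tau c t j).1]
  have e : (1 : K[X]) * (C ((j : K) + 1) * ups c t j) - derivative (1 : K[X]) * tau c t (j + 1) =
      ((j : K) + 1) • ups c t j := by
    rw [smul_eq_C_mul, derivative_one]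
    ring
  rw [e, map_smul, semi_one, smul_eq_mul]
  by_cases h : j = 0
  · subst h
    simp
  · simp [h]

/-- The Pfaffian for the semicircle functional. -/
theorem pf_semi {K : Type*} [CommRing K] [Algebra ℚ K] [Nontrivial K] (n : ℕ) (c t l : K)
    (A : Matrix (Fin (2 * n)) (Fin (2 * n)) K)
    (hA : ∀ i j, A i j = (((j : ℕ) : K) - ((i : ℕ) : K)) *
      Lf c t (wt t l) (X ^ ((i : ℕ) + (j : ℕ) - 1))) :
    pf n A = ∏ k ∈ range n, (l * (4 * k + 1) * t ^ (2 * k)) := by
  refine pf_hankel n (Lf c t (wt t l)) (qs c t) (fun k => l * (4 * k + 1) * t ^ (2 * k))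
    (fun k => algebraMap ℚ K ((4 * k + 3) / (4 * k + 1)) * t) ?_ ?_ ?_ ?_ ?_ A hA
  · intro i
    rcases i with _ | i
    · exact monic_one
    · exact (tau_monic c t i).2.1
  · intro i
    rcases i with _ | i
    · exact natDegree_one
    · exact (tau_monic c t i).2.2
  · intro i j hij
    obtain ⟨j, rfl⟩ : ∃ j', j = j' + 1 := ⟨j - 1, by omega⟩
    rcases i with _ | i
    · show bf (Lf c t (wt t l)) 1 (tau c t (j + 1)) = 0
      rw [bf_semi0, if_neg (by omega)]
    · show bf (Lf c t (wt t l)) (tau c t (i + 1)) (tau c t (j + 1)) = 0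
      rw [bf_semi c t l i j (by omega), if_neg (by omega)]
  · intro k
    rcases k with _ | k
    · show bf (Lf c t (wt t l)) 1 (tau c t (0 + 1)) = _
      rw [bf_semi0, if_pos rfl]
      simp
    · show bf (Lf c t (wt t l)) (tau c t ((2 * k + 1) + 1)) (tau c t ((2 * k + 2) + 1)) = _
      rw [bf_semi c t l _ _ (by omega), if_pos (by omega)]
      push_cast
      ring
  · intro k
    show bf (Lf c t (wt t l)) (tau c t (2 * k + 1)) (tau c t ((2 * k + 1) + 1)) = _
    rw [bf_semi c t l _ _ (by omega), if_pos (by omega)]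
    have h : algebraMap ℚ K ((4 * k + 3) / (4 * k + 1)) * (4 * (k : K) + 1) = 4 * (k : K) + 3 := by
      have h1 : (4 * (k : K) + 1) = algebraMap ℚ K (4 * k + 1) := by
        rw [map_add, map_mul, map_natCast, map_ofNat, map_one]
      have h2 : (4 * (k : K) + 3) = algebraMap ℚ K (4 * k + 3) := by
        rw [map_add, map_mul, map_natCast, map_ofNat, map_ofNat]
      rw [h1, h2, ← map_mul, div_mul_cancel₀]
      positivity
    have h3 : algebraMap ℚ K ((4 * k + 3) / (4 * k + 1)) * t * (l * (4 * (k : K) + 1) * t ^ (2 * k))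
        = (algebraMap ℚ K ((4 * k + 3) / (4 * k + 1)) * (4 * (k : K) + 1)) *
          (l * t ^ (2 * k + 1)) := by ring
    rw [h3, h]
    push_cast
    ring

/-! ### The arcsine functional -/

theorem arc_one {K : Type*} [CommRing K] (c t : K) : Lf c t 1 1 = 1 := by
  rw [Lf_apply, map_one, mul_one, ← mo_one, ct_mo, if_pos rfl]

theorem arc_tau {K : Type*} [CommRing K] (c t : K) (i : ℕ) : Lf c t 1 (tau c t (i + 1)) = 0 := by
  rw [Lf_apply, mul_one, (aeval_tau c t i).2, map_add, ct_mo, ct_mo, if_neg (by omega),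
    if_neg (by omega), add_zero]

theorem arc_P {K : Type*} [CommRing K] (c t : K) (i j : ℕ) :
    Lf c t 1 (tau c t (i + 1) * tau c t (j + 1)) = if i = j then 2 * t ^ (i + 1) else 0 := by
  rw [Lf_apply, map_mul (Polynomial.aeval (xx c t)), mul_one, (aeval_tau c t i).2,
    (aeval_tau c t j).2]
  simp only [add_mul, mul_add, mo_mul, map_add, ct_mo]
  have a1 : ¬ ((i : ℤ) + 1 + (j + 1) = 0) := by omega
  have a2 : ¬ (-((i : ℤ) + 1) + -((j : ℤ) + 1) = 0) := by omega
  rw [if_neg a1, if_neg a2]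
  have b1 : ((i : ℤ) + 1 + -((j : ℤ) + 1) = 0) ↔ i = j := by omega
  have b2 : (-((i : ℤ) + 1) + ((j : ℤ) + 1) = 0) ↔ i = j := by omega
  simp only [b1, b2]
  by_cases h1 : i = j
  · subst h1
    simp only [if_true]
    ring
  · simp only [if_neg h1]
    ring

/-- The basis for the arcsine functional. -/
noncomputable def qa (c t : ℚ) : ℕ → ℚ[X]
  | 0 => 1
  | 1 => tau c t 1
  | 2 => tau c t 2
  | (m + 3) => tau c t (m + 3) - C ((m + 3) / (m + 1) * t) * tau c t (m + 1)

theorem qa_monic (c t : ℚ) (i : ℕ) : (qa c t i).Monic ∧ (qa c t i).natDegree = i := by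
  match i with
  | 0 => exact ⟨monic_one, natDegree_one⟩
  | 1 => exact ⟨(tau_monic c t 0).2.1, (tau_monic c t 0).2.2⟩
  | 2 => exact ⟨(tau_monic c t 1).2.1, (tau_monic c t 1).2.2⟩
  | (m + 3) =>
    have hlt : (C ((m + 3) / (m + 1) * t) * tau c t (m + 1)).natDegree <
        (tau c t (m + 3)).natDegree := by
      rw [(tau_monic c t (m + 2)).2.2]
      refine lt_of_le_of_lt (natDegree_C_mul_le _ _) ?_
      rw [(tau_monic c t m).2.2]
      omega
    refine ⟨((tau_monic c t (m + 2)).2.1).sub_of_left (degree_lt_degree hlt), ?_⟩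
    show (tau c t (m + 3) - C ((m + 3) / (m + 1) * t) * tau c t (m + 1)).natDegree = _
    rw [natDegree_sub_eq_left_of_natDegree_lt hlt, (tau_monic c t (m + 2)).2.2]

theorem deriv_qa (c t : ℚ) (m : ℕ) :
    derivative (qa c t (m + 2)) = C ((m : ℚ) + 2) * tau c t (m + 1) := by
  rcases m with _ | m
  · show derivative (tau c t (0 + 2)) = _
    rw [(deriv_tau c t 0).2]
    rfl
  · show derivative (tau c t (m + 1 + 2) - C ((m + 3) / (m + 1) * t) * tau c t (m + 1)) = _
    rw [derivative_sub, (deriv_tau c t (m + 1)).2, derivative_mul, (deriv_tau c t m).1,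
      derivative_C, (tau_ups c t m).1]
    have h : (C ((m + 3) / (m + 1) * t) : ℚ[X]) * C ((m : ℚ) + 1) = C ((m : ℚ) + 3) * C t := by
      rw [← C_mul, ← C_mul]
      congr 1
      field_simp
    have h2 : ((m + 1 : ℕ) : ℚ) + 2 = (m : ℚ) + 3 := by push_cast; ring
    rw [h2]
    have h3 : (0 : ℚ[X]) * tau c t (m + 1) +
        C ((m + 3) / (m + 1) * t) * (C ((m : ℚ) + 1) * ups c t m) =
        (C ((m + 3) / (m + 1) * t) * C ((m : ℚ) + 1)) * ups c t m := by ring
    rw [h3, h]
    show C ((m : ℚ) + 3) * ups c t (m + 2) - _ = _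
    ring

theorem arc_qa (c t : ℚ) (m : ℕ) : Lf c t 1 (qa c t (m + 2)) = 0 := by
  rcases m with _ | m
  · exact arc_tau c t 1
  · show Lf c t 1 (tau c t (m + 2 + 1) - C ((m + 3) / (m + 1) * t) * tau c t (m + 1)) = 0
    rw [map_sub, arc_tau, ← smul_eq_C_mul, map_smul, arc_tau]
    simp

theorem arc_Q (c t : ℚ) (i j : ℕ) :
    Lf c t 1 (qa c t (i + 2) * tau c t (j + 1)) =
      (if j = i + 1 then 2 * t ^ (i + 2) else 0) -
        (if i = j + 1 then (((i : ℚ) + 2) / i) * (2 * t ^ (i + 1)) else 0) := by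
  rcases i with _ | i
  · show Lf c t 1 (tau c t (1 + 1) * tau c t (j + 1)) = _
    rw [arc_P]
    by_cases h : j = 1
    · subst h
      simp
    · rw [if_neg (by omega), if_neg (by omega), if_neg (by omega)]
      ring
  · show Lf c t 1 ((tau c t (i + 2 + 1) - C ((i + 3) / (i + 1) * t) * tau c t (i + 1)) *
      tau c t (j + 1)) = _
    rw [sub_mul, map_sub, arc_P, ← smul_eq_C_mul, smul_mul_assoc, map_smul, arc_P]
    have h2 : ((i + 1 : ℕ) : ℚ) + 2 = (i : ℚ) + 3 := by push_cast; ring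
    rw [h2]
    by_cases h : j = i + 2
    · subst h
      rw [if_pos rfl, if_neg (by omega), if_neg (by omega)]
      simp
    · by_cases h' : i = j
      · subst h'
        rw [if_neg (by omega), if_pos rfl, if_neg (by omega), if_pos rfl]
        push_cast
        simp only [smul_eq_mul]
        ring
      · rw [if_neg (by omega), if_neg (by omega), if_neg (by omega), if_neg (by omega)]
        simp

theorem bf_arc (c t : ℚ) (i j : ℕ) (hij : i < j) :
    bf (Lf c t 1) (qa c t (i + 2)) (qa c t (j + 2)) =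
      if j = i + 1 then 2 * t ^ (i + 2) * (i + 3) * (2 * i + 3) / (i + 1) else 0 := by
  rw [bf_apply, deriv_qa, deriv_qa]
  have e : qa c t (i + 2) * (C ((j : ℚ) + 2) * tau c t (j + 1)) -
      C ((i : ℚ) + 2) * tau c t (i + 1) * qa c t (j + 2) =
      ((j : ℚ) + 2) • (qa c t (i + 2) * tau c t (j + 1)) -
        ((i : ℚ) + 2) • (qa c t (j + 2) * tau c t (i + 1)) := by
    rw [smul_eq_C_mul, smul_eq_C_mul]
    ring
  rw [e, map_sub, map_smul, map_smul, arc_Q, arc_Q]
  have h1 : ¬ (i = j + 1) := by omega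
  simp only [if_neg h1, smul_eq_mul]
  by_cases h2 : j = i + 1
  · subst h2
    simp only [if_true]
    push_cast
    field_simp
    ring
  · simp only [if_neg h2]
    ring

theorem bf_arc0 (c t : ℚ) (j : ℕ) : bf (Lf c t 1) (qa c t 0) (qa c t (j + 2)) = 0 := by
  rw [bf_apply, deriv_qa]
  show Lf c t 1 (1 * (C ((j : ℚ) + 2) * tau c t (j + 1)) - derivative (1 : ℚ[X]) * _) = 0
  rw [derivative_one, zero_mul, sub_zero, one_mul, ← smul_eq_C_mul, map_smul, arc_tau]
  simp

theorem bf_arc01 (c t : ℚ) : bf (Lf c t 1) (qa c t 0) (qa c t 1) = 1 := by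
  rw [bf_apply]
  show Lf c t 1 (1 * derivative (X - C c) - derivative (1 : ℚ[X]) * _) = 1
  simp only [derivative_one, zero_mul, sub_zero, one_mul, derivative_sub, derivative_X,
    derivative_C]
  exact arc_one c t

theorem bf_arc1 (c t : ℚ) (j : ℕ) :
    bf (Lf c t 1) (qa c t 1) (qa c t (j + 2)) = if j = 0 then 4 * t else 0 := by
  rw [bf_apply, deriv_qa]
  have e : qa c t 1 * (C ((j : ℚ) + 2) * tau c t (j + 1)) -
      derivative (qa c t 1) * qa c t (j + 2) =
      ((j : ℚ) + 2) • (tau c t (0 + 1) * tau c t (j + 1)) - qa c t (j + 2) := by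
    have h : derivative (qa c t 1) = 1 := by
      show derivative (X - C c) = 1
      simp
    rw [smul_eq_C_mul, h, one_mul]
    show tau c t 1 * _ - _ = _
    ring
  rw [e, map_sub, map_smul, arc_P, arc_qa]
  by_cases h : j = 0
  · subst h
    simp
    ring
  · rw [if_neg (by omega), if_neg h]
    simp

/-- The diagonal values for the arcsine functional. -/
noncomputable def ca (t : ℚ) : ℕ → ℚ
  | 0 => 1
  | (k + 1) => 2 * t ^ (2 * k + 2) * (2 * k + 3) * (4 * k + 3) / (2 * k + 1)

/-- The ratios for the arcsine functional. -/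
noncomputable def ra (t : ℚ) : ℕ → ℚ
  | 0 => 4 * t
  | (k + 1) => t * ((2 * k + 4) * (4 * k + 5) * (2 * k + 1)) /
      ((2 * k + 2) * (2 * k + 3) * (4 * k + 3))

/-- The Pfaffian for the arcsine functional. -/
theorem pf_arc (n : ℕ) (c t : ℚ) (A : Matrix (Fin (2 * n)) (Fin (2 * n)) ℚ)
    (hA : ∀ i j, A i j = (((j : ℕ) : ℚ) - ((i : ℕ) : ℚ)) *
      Lf c t 1 (X ^ ((i : ℕ) + (j : ℕ) - 1))) :
    pf n A = ∏ k ∈ range n, ca t k := by
  refine pf_hankel n (Lf c t 1) (qa c t) (ca t) (ra t) (fun i => (qa_monic c t i).1)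
    (fun i => (qa_monic c t i).2) ?_ ?_ ?_ A hA
  · intro i j hij
    obtain ⟨j, rfl⟩ : ∃ j', j = j' + 2 := ⟨j - 2, by omega⟩
    match i, hij with
    | 0, _ => exact bf_arc0 c t j
    | 1, hij => rw [bf_arc1, if_neg (by omega)]
    | (i + 2), hij => rw [bf_arc c t i j (by omega), if_neg (by omega)]
  · intro k
    rcases k with _ | k
    · exact bf_arc01 c t
    · show bf (Lf c t 1) (qa c t (2 * k + 2)) (qa c t ((2 * k + 1) + 2)) = _
      rw [bf_arc c t _ _ (by omega), if_pos rfl]
      show _ = 2 * t ^ (2 * k + 2) * (2 * k + 3) * (4 * k + 3) / (2 * k + 1)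
      push_cast
      ring
  · intro k
    rcases k with _ | k
    · show bf (Lf c t 1) (qa c t 1) (qa c t (0 + 2)) = _
      rw [bf_arc1, if_pos rfl]
      show _ = 4 * t * 1
      ring
    · show bf (Lf c t 1) (qa c t ((2 * k + 1) + 2)) (qa c t ((2 * k + 2) + 2)) = _
      rw [bf_arc c t _ _ (by omega), if_pos rfl]
      show _ = (t * ((2 * k + 4) * (4 * k + 5) * (2 * k + 1)) /
        ((2 * k + 2) * (2 * k + 3) * (4 * k + 3))) *
          (2 * t ^ (2 * k + 2) * (2 * k + 3) * (4 * k + 3) / (2 * k + 1))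
      push_cast
      have h1 : (2 * (k : ℚ) + 1) ≠ 0 := by positivity
      have h2 : (2 * (k : ℚ) + 2) ≠ 0 := by positivity
      have h3 : (2 * (k : ℚ) + 3) ≠ 0 := by positivity
      have h4 : (4 * (k : ℚ) + 3) ≠ 0 := by positivity
      have h5 : (2 * (k : ℚ) + 1 + 1) ≠ 0 := by positivity
      field_simp
      ring

end Pool.Agent.Helper26_Pf
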