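import Pool.Agent.Helper26_Pf.Pfaffian

/-!
# Constant term functionals and Chebyshev type polynomials
-/

set_option autoImplicit false

namespace Pool.Agent.Helper26_Pf

open Finset Polynomial

/-- The Laurent monomial `a z^n`. -/
noncomputable def mo {K : Type*} [CommRing K] (a : K) (n : ℤ) : LaurentPolynomial K :=
  LaurentPolynomial.C a * LaurentPolynomial.T n

theorem mo_mul {K : Type*} [CommRing K] (a b : K) (m n : ℤ) :
    mo a m * mo b n = mo (a * b) (m + n) := by
  unfold mo
  rw [LaurentPolynomial.T_add, map_mul]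
  ring

theorem mo_zero {K : Type*} [CommRing K] (a : K) : mo a 0 = LaurentPolynomial.C a := by
  unfold mo
  rw [LaurentPolynomial.T_zero, mul_one]

theorem mo_one {K : Type*} [CommRing K] : (mo (1 : K) 0) = 1 := by
  rw [mo_zero, map_one]

theorem mo_add {K : Type*} [CommRing K] (a b : K) (n : ℤ) : mo (a + b) n = mo a n + mo b n := by
  unfold mo
  rw [map_add, add_mul]

theorem mo_pow {K : Type*} [CommRing K] (a : K) (m : ℤ) (n : ℕ) :
    mo a m ^ n = mo (a ^ n) (n * m) := by
  unfold mo
  rw [mul_pow, LaurentPolynomial.T_pow, map_pow]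

/-- The constant term. -/
noncomputable def ct {K : Type*} [CommRing K] : LaurentPolynomial K →ₗ[K] K where
  toFun f := f.coeff 0
  map_add' := by intro f g; simp
  map_smul' := by intro c f; simp

theorem ct_mo {K : Type*} [CommRing K] (a : K) (n : ℤ) :
    ct (mo a n) = if n = 0 then a else 0 := by
  show (mo a n).coeff 0 = _
  unfold mo
  rw [← LaurentPolynomial.single_eq_C_mul_T, AddMonoidAlgebra.coeff_single, Finsupp.single_apply]

/-- The Laurent polynomial `c + z + t/z`. -/
noncomputable def xx {K : Type*} [CommRing K] (c t : K) : LaurentPolynomial K :=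
  mo c 0 + mo 1 1 + mo t (-1)

/-- The functional `f ↦ CT (f (c + z + t/z) * w)`. -/
noncomputable def Lf {K : Type*} [CommRing K] (c t : K) (w : LaurentPolynomial K) :
    K[X] →ₗ[K] K :=
  ct.comp ((LinearMap.mulRight K w).comp (Polynomial.aeval (xx c t)).toLinearMap)

theorem Lf_apply {K : Type*} [CommRing K] (c t : K) (w : LaurentPolynomial K) (f : K[X]) :
    Lf c t w f = ct (Polynomial.aeval (xx c t) f * w) := rfl

/-- Chebyshev type polynomials of the first kind. -/
noncomputable def tau {K : Type*} [CommRing K] (c t : K) : ℕ → K[X]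
  | 0 => 2
  | 1 => X - C c
  | (k + 2) => (X - C c) * tau c t (k + 1) - C t * tau c t k

/-- Chebyshev type polynomials of the second kind. -/
noncomputable def ups {K : Type*} [CommRing K] (c t : K) : ℕ → K[X]
  | 0 => 1
  | 1 => X - C c
  | (k + 2) => (X - C c) * ups c t (k + 1) - C t * ups c t k

theorem aeval_y {K : Type*} [CommRing K] (c t : K) :
    Polynomial.aeval (xx c t) (X - C c) = mo 1 1 + mo t (-1) := by
  rw [map_sub, aeval_X, aeval_C, ← LaurentPolynomial.C_eq_algebraMap, ← mo_zero]
  unfold xx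
  ring

theorem aeval_tau {K : Type*} [CommRing K] (c t : K) (k : ℕ) :
    Polynomial.aeval (xx c t) (tau c t k) = mo 1 k + mo (t ^ k) (-k) ∧
    Polynomial.aeval (xx c t) (tau c t (k + 1)) = mo 1 (k + 1) + mo (t ^ (k + 1)) (-(k + 1)) := by
  induction k with
  | zero =>
    constructor
    · show Polynomial.aeval (xx c t) (2 : K[X]) = _
      rw [map_ofNat]
      simp only [Nat.cast_zero, neg_zero, pow_zero, mo_one]
      norm_num
    · show Polynomial.aeval (xx c t) (X - C c) = _
      rw [aeval_y]
      simp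
  | succ k ih =>
    obtain ⟨h1, h2⟩ := ih
    refine ⟨by simpa using h2, ?_⟩
    show Polynomial.aeval (xx c t) ((X - C c) * tau c t (k + 1) - C t * tau c t k) = _
    rw [map_sub, map_mul, map_mul, aeval_y, h1, h2, aeval_C, ← LaurentPolynomial.C_eq_algebraMap,
      ← mo_zero]
    simp only [add_mul, mul_add, mo_mul]
    push_cast
    have e1 : (1 : ℤ) + (k + 1) = k + 1 + 1 := by ring
    have e2 : (1 : ℤ) + -(k + 1) = -k := by ring
    have e3 : (-1 : ℤ) + (k + 1) = k := by ring
    have e4 : (-1 : ℤ) + -(k + 1) = -(k + 1 + 1) := by ring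
    have e5 : (0 : ℤ) + k = k := by ring
    have e6 : (0 : ℤ) + -k = -k := by ring
    rw [e1, e2, e3, e4, e5, e6]
    have f1 : t * t ^ (k + 1) = t ^ (k + 1 + 1) := by ring
    have f2 : t * t ^ k = t ^ (k + 1) := by ring
    rw [f1, f2]
    simp only [one_mul, mul_one]
    ring

theorem aeval_ups {K : Type*} [CommRing K] (c t : K) (k : ℕ) :
    Polynomial.aeval (xx c t) (ups c t k) * (mo 1 1 - mo t (-1)) =
      mo 1 (k + 1) - mo (t ^ (k + 1)) (-(k + 1)) ∧
    Polynomial.aeval (xx c t) (ups c t (k + 1)) * (mo 1 1 - mo t (-1)) =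
      mo 1 (k + 2) - mo (t ^ (k + 2)) (-(k + 2)) := by
  induction k with
  | zero =>
    constructor
    · show Polynomial.aeval (xx c t) (1 : K[X]) * _ = _
      rw [map_one]
      simp
    · show Polynomial.aeval (xx c t) (X - C c) * _ = _
      rw [aeval_y]
      simp only [add_mul, mul_sub, mo_mul]
      norm_num
      ring_nf
  | succ k ih =>
    obtain ⟨h1, h2⟩ := ih
    refine ⟨?_, ?_⟩
    · rw [h2]
      push_cast
      congr 2
    show Polynomial.aeval (xx c t) ((X - C c) * ups c t (k + 1) - C t * ups c t k) * _ = _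
    rw [map_sub, map_mul, map_mul, aeval_y, sub_mul, mul_assoc, mul_assoc, h1, h2, aeval_C,
      ← LaurentPolynomial.C_eq_algebraMap, ← mo_zero]
    simp only [add_mul, mul_sub, mo_mul]
    push_cast
    have e1 : (1 : ℤ) + (k + 2) = k + 1 + 2 := by ring
    have e2 : (1 : ℤ) + -(k + 2) = -(k + 1) := by ring
    have e3 : (-1 : ℤ) + (k + 2) = k + 1 := by ring
    have e4 : (-1 : ℤ) + -(k + 2) = -(k + 1 + 2) := by ring
    have e5 : (0 : ℤ) + (k + 1) = k + 1 := by ring
    have e6 : (0 : ℤ) + -(k + 1) = -(k + 1) := by ring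
    rw [e1, e2, e3, e4, e5, e6]
    have f1 : t * t ^ (k + 2) = t ^ (k + 1 + 2) := by ring
    have f2 : t * t ^ (k + 1) = t ^ (k + 2) := by ring
    rw [f1, f2]
    simp only [one_mul, mul_one]
    ring

theorem tau_ups {K : Type*} [CommRing K] (c t : K) (k : ℕ) :
    tau c t (k + 2) = ups c t (k + 2) - C t * ups c t k ∧
    tau c t (k + 3) = ups c t (k + 3) - C t * ups c t (k + 1) := by
  induction k with
  | zero =>
    constructor
    · simp only [tau, ups]
      ring
    · simp only [tau, ups]
      ring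
  | succ k ih =>
    obtain ⟨h1, h2⟩ := ih
    refine ⟨h2, ?_⟩
    show (X - C c) * tau c t (k + 3) - C t * tau c t (k + 2) =
      ((X - C c) * ups c t (k + 3) - C t * ups c t (k + 2)) -
        C t * ((X - C c) * ups c t (k + 1) - C t * ups c t k)
    rw [h1, h2]
    ring

theorem deriv_tau {K : Type*} [CommRing K] (c t : K) (k : ℕ) :
    derivative (tau c t (k + 1)) = C ((k : K) + 1) * ups c t k ∧
    derivative (tau c t (k + 2)) = C ((k : K) + 2) * ups c t (k + 1) := by
  induction k with
  | zero =>
    constructor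
    · simp [tau, ups]
    · simp only [tau, ups, derivative_sub, derivative_mul, derivative_X, derivative_C,
        derivative_ofNat]
      have : (C ((0 : ℕ) + 2 : K) : K[X]) = 2 := by
        rw [Nat.cast_zero, zero_add]
        exact map_ofNat C 2
      rw [this]
      ring
  | succ k ih =>
    obtain ⟨h1, h2⟩ := ih
    refine ⟨?_, ?_⟩
    · rw [h2]
      congr 2
      push_cast
      ring
    · have e1 : tau c t (k + 1 + 2) = (X - C c) * tau c t (k + 2) - C t * tau c t (k + 1) := rfl
      have e2 : ups c t (k + 1 + 1) = (X - C c) * ups c t (k + 1) - C t * ups c t k := rfl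
      have e3 : tau c t (k + 2) = ups c t (k + 1 + 1) - C t * ups c t k := (tau_ups c t k).1
      rw [e1, derivative_sub, derivative_mul, derivative_mul, h1, h2, e3]
      simp only [derivative_sub, derivative_X, derivative_C]
      rw [e2]
      simp only [map_add, map_one, map_ofNat, Nat.cast_add, Nat.cast_one]
      ring

theorem tau_monic {K : Type*} [CommRing K] [Nontrivial K] (c t : K) (k : ℕ) :
    (tau c t k).natDegree ≤ k ∧ (tau c t (k + 1)).Monic ∧ (tau c t (k + 1)).natDegree = k + 1 := by
  induction k with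
  | zero =>
    refine ⟨?_, monic_X_sub_C c, natDegree_X_sub_C c⟩
    show (2 : K[X]).natDegree ≤ 0
    rw [natDegree_ofNat]
  | succ k ih =>
    obtain ⟨h1, h2, h3⟩ := ih
    refine ⟨h3.le, ?_⟩
    have hm : ((X - C c) * tau c t (k + 1)).Monic := (monic_X_sub_C c).mul h2
    have hd : ((X - C c) * tau c t (k + 1)).natDegree = k + 2 := by
      rw [(monic_X_sub_C c).natDegree_mul h2, natDegree_X_sub_C, h3]
      ring
    have hlt : (C t * tau c t k).natDegree < ((X - C c) * tau c t (k + 1)).natDegree := by
      rw [hd]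
      exact lt_of_le_of_lt (natDegree_C_mul_le _ _) (by omega)
    refine ⟨hm.sub_of_left (degree_lt_degree hlt), ?_⟩
    show ((X - C c) * tau c t (k + 1) - C t * tau c t k).natDegree = _
    rw [natDegree_sub_eq_left_of_natDegree_lt hlt, hd]

end Pool.Agent.Helper26_Pf
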