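import Pool.Agent.Helper26_Pf.Eval

/-!
# The sequences and their moment representations
-/

set_option autoImplicit false

namespace Pool.Agent.Helper26_Pf

open Finset Polynomial

/-- The Catalan numbers `C_k = binom(2k, k) / (k+1)`. -/
noncomputable def cat (k : ℕ) : ℚ := (1 / ((k : ℚ) + 1)) * (Nat.choose (2 * k) k : ℚ)

/-- The Motzkin numbers `M_n = ∑_{k ≤ n} binom(n, 2k) C_k`. -/
noncomputable def motzkin (n : ℕ) : ℚ := ∑ k ∈ range (n + 1), (Nat.choose n (2 * k) : ℚ) * cat k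

/-- The central Delannoy numbers `D_n = ∑_{k ≤ n} binom(n, k) binom(n+k, k)`. -/
noncomputable def delannoy (n : ℕ) : ℚ :=
  ∑ k ∈ range (n + 1), (Nat.choose n k : ℚ) * (Nat.choose (n + k) k : ℚ)

/-- The Schröder numbers `S_n = ∑_{k ≤ n} binom(n+k, 2k) C_k`. -/
noncomputable def schroder (n : ℕ) : ℚ :=
  ∑ k ∈ range (n + 1), (Nat.choose (n + k) (2 * k) : ℚ) * cat k

/-- The Narayana polynomials `N_0 = 1` and
`N_n = ∑_{k ≤ n} (1/n) binom(n, k) binom(n, k-1) X^k` for `n ≥ 1`, where `binom(n, -1) = 0`. -/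
noncomputable def narayana (n : ℕ) : ℚ[X] :=
  if n = 0 then 1 else ∑ k ∈ range (n + 1),
    C ((1 / (n : ℚ)) * (Nat.choose n k : ℚ) * (if k = 0 then 0 else (Nat.choose n (k - 1) : ℚ))) *
      X ^ k

/-! ### Expansions -/

theorem pow_one_z {K : Type*} [CommRing K] (m : ℕ) :
    ((mo 1 1 + mo 1 0) ^ m : LaurentPolynomial K) = ∑ k ∈ range (m + 1), mo (m.choose k : K) k := by
  rw [add_pow]
  refine Finset.sum_congr rfl (fun k _ => ?_)
  rw [mo_pow, mo_pow, mo_mul]
  have : ((m.choose k : ℕ) : LaurentPolynomial K) = mo (m.choose k : K) 0 := by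
    rw [mo_zero, map_natCast]
  rw [this, mo_mul]
  congr 1
  · simp
  · simp

theorem pow_a_z {K : Type*} [CommRing K] (a : K) (m : ℕ) :
    ((mo a (-1) + mo 1 0) ^ m : LaurentPolynomial K) =
      ∑ k ∈ range (m + 1), mo (m.choose k * a ^ k : K) (-k) := by
  rw [add_pow]
  refine Finset.sum_congr rfl (fun k _ => ?_)
  rw [mo_pow, mo_pow, mo_mul]
  have : ((m.choose k : ℕ) : LaurentPolynomial K) = mo (m.choose k : K) 0 := by
    rw [mo_zero, map_natCast]
  rw [this, mo_mul]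
  congr 1
  · rw [one_pow]
    ring
  · ring

theorem xx_fac {K : Type*} [CommRing K] (a : K) :
    xx (1 + a) a = (mo 1 1 + mo 1 0) * (mo a (-1) + mo 1 0) := by
  unfold xx
  simp only [add_mul, mul_add, mo_mul, mo_add]
  norm_num
  ring

theorem ct_xx_pow {K : Type*} [CommRing K] (a b : K) (m : ℕ) (s : ℤ) :
    ct (xx (1 + a) a ^ m * mo b s) = ∑ l ∈ range (m + 1), ∑ k ∈ range (m + 1),
      if (k : ℤ) = l - s then (m.choose k : K) * (m.choose l * a ^ l) * b else 0 := by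
  rw [xx_fac, mul_pow, pow_one_z, pow_a_z, Finset.sum_mul_sum, Finset.sum_comm, Finset.sum_mul,
    map_sum]
  refine Finset.sum_congr rfl (fun l _ => ?_)
  rw [Finset.sum_mul, map_sum]
  refine Finset.sum_congr rfl (fun k _ => ?_)
  rw [mo_mul, mo_mul, ct_mo]
  have h : ((k : ℤ) + -(l : ℤ) + s = 0) ↔ (k : ℤ) = l - s := by constructor <;> intro h <;> omega
  simp only [h]

theorem ct_xx0 {K : Type*} [CommRing K] (a b : K) (m : ℕ) :
    ct (xx (1 + a) a ^ m * mo b 0) =
      ∑ l ∈ range (m + 1), (m.choose l : K) ^ 2 * a ^ l * b := by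
  rw [ct_xx_pow]
  refine Finset.sum_congr rfl (fun l hl => ?_)
  have h : ∀ k : ℕ, ((k : ℤ) = l - 0) ↔ k = l := fun k => by omega
  simp only [h]
  rw [Finset.sum_ite_eq' (range (m + 1)) l, if_pos hl]
  ring

theorem ct_xx2 {K : Type*} [CommRing K] (a b : K) (m : ℕ) :
    ct (xx (1 + a) a ^ m * mo b (-2)) =
      ∑ l ∈ range (m + 1), (m.choose (l + 2) : K) * (m.choose l) * a ^ l * b := by
  rw [ct_xx_pow]
  refine Finset.sum_congr rfl (fun l hl => ?_)
  have h : ∀ k : ℕ, ((k : ℤ) = l - (-2)) ↔ k = l + 2 := fun k => by omega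
  simp only [h]
  rw [Finset.sum_ite_eq' (range (m + 1)) (l + 2)]
  by_cases h2 : l + 2 ∈ range (m + 1)
  · rw [if_pos h2]
    ring
  · rw [if_neg h2, Nat.choose_eq_zero_of_lt (by rw [mem_range] at h2; omega)]
    simp

/-! ### Narayana polynomials -/

theorem choose_rel (m k : ℕ) :
    (m.choose (k + 1) : ℚ) * (k + 1) = (m.choose k : ℚ) * (m - k) := by
  rcases Nat.lt_or_ge m k with h | h
  · rw [Nat.choose_eq_zero_of_lt h, Nat.choose_eq_zero_of_lt (by omega)]
    simp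
  · have := Nat.choose_succ_right_eq m k
    have h2 : ((m.choose (k + 1) * (k + 1) : ℕ) : ℚ) = ((m.choose k * (m - k) : ℕ) : ℚ) := by
      rw [this]
    push_cast [Nat.cast_sub h] at h2
    exact h2

theorem nar_coeff (m k : ℕ) :
    (1 / ((m + 1 : ℕ) : ℚ)) * ((m + 1).choose (k + 1) : ℚ) * ((m + 1).choose k : ℚ) =
      (m.choose k : ℚ) ^ 2 - (m.choose (k + 1) : ℚ) *
        (if k = 0 then 0 else (m.choose (k - 1) : ℚ)) := by
  rcases k with _ | k
  · simp only [zero_add, Nat.choose_one_right, Nat.choose_zero_right, if_true]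
    have : ((m + 1 : ℕ) : ℚ) ≠ 0 := by positivity
    field_simp
    simp
  · rw [if_neg (by omega), Nat.add_sub_cancel]
    have R1 := choose_rel m k
    have R2 := choose_rel m (k + 1)
    have p1 : ((m + 1).choose (k + 1 + 1) : ℚ) = (m.choose (k + 1) : ℚ) + m.choose (k + 1 + 1) := by
      rw [Nat.choose_succ_succ]; push_cast; ring
    have p2 : ((m + 1).choose (k + 1) : ℚ) = (m.choose k : ℚ) + m.choose (k + 1) := by
      rw [Nat.choose_succ_succ]; push_cast; ring
    rw [p1, p2]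
    generalize (m.choose k : ℚ) = x at *
    generalize (m.choose (k + 1) : ℚ) = y at *
    generalize (m.choose (k + 1 + 1) : ℚ) = z at *
    push_cast at R2 ⊢
    have hu : ((k : ℚ) + 1) ≠ 0 := by positivity
    have hu2 : ((k : ℚ) + 2) ≠ 0 := by positivity
    have hm : ((m : ℚ) + 1) ≠ 0 := by positivity
    have key : ((y + z) * (x + y) - (m + 1) * (y ^ 2 - z * x)) * (((k : ℚ) + 1) * (k + 2)) = 0 := by
      have h1 : (x + y) * ((k : ℚ) + 1) = x * (m + 1) := by linear_combination R1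
      have h2 : (y + z) * ((k : ℚ) + 2) = y * (m + 1) := by linear_combination R2
      linear_combination (x + y) * ((k : ℚ) + 1) * h2 + y * ((m : ℚ) + 1) * h1 -
        ((m : ℚ) + 1) * (y * ((k : ℚ) + 2) * R1 - x * ((k : ℚ) + 1) * R2)
    have key2 : (y + z) * (x + y) - (m + 1) * (y ^ 2 - z * x) = 0 := by
      rcases mul_eq_zero.1 key with h | h
      · exact h
      · exact absurd h (mul_ne_zero hu hu2)
    rw [one_div, inv_mul_eq_div, div_mul_eq_mul_div, div_eq_iff hm]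
    linear_combination key2

theorem nar_moment {K : Type*} [CommRing K] [Algebra ℚ K] (a : K) (m : ℕ) :
    Polynomial.aeval a (narayana (m + 1)) = Lf (1 + a) a (wt a a) (X ^ m) := by
  have hw : wt a a = mo a 0 - mo (a * a) (-2) := by
    unfold wt
    rw [sub_mul, mo_mul, mo_mul]
    norm_num
  rw [Lf_apply, hw, map_pow, aeval_X, mul_sub, map_sub, ct_xx0, ct_xx2]
  unfold narayana
  rw [if_neg (by omega), map_sum, Finset.sum_range_succ']
  have h0 : (Polynomial.aeval a) (C ((1 / ((m + 1 : ℕ) : ℚ)) * ((m + 1).choose 0 : ℚ) *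
      (if (0 : ℕ) = 0 then 0 else (((m + 1).choose (0 - 1) : ℕ) : ℚ))) * X ^ 0) = 0 := by
    simp
  rw [h0, add_zero]
  have h1 : ∀ k ∈ range (m + 1), (Polynomial.aeval a) (C ((1 / ((m + 1 : ℕ) : ℚ)) *
      ((m + 1).choose (k + 1) : ℚ) *
      (if k + 1 = 0 then 0 else (((m + 1).choose (k + 1 - 1) : ℕ) : ℚ))) * X ^ (k + 1)) =
      (m.choose k : K) ^ 2 * a ^ k * a -
        (m.choose (k + 1) : K) * (if k = 0 then 0 else (m.choose (k - 1) : K)) * a ^ (k + 1) := by
    intro k _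
    rw [if_neg (by omega), Nat.add_sub_cancel, nar_coeff, map_mul, aeval_C, map_pow, aeval_X]
    have h2 : algebraMap ℚ K ((m.choose k : ℚ) ^ 2 - (m.choose (k + 1) : ℚ) *
        (if k = 0 then 0 else (m.choose (k - 1) : ℚ))) =
        (m.choose k : K) ^ 2 - (m.choose (k + 1) : K) *
          (if k = 0 then 0 else (m.choose (k - 1) : K)) := by
      split_ifs
      · simp
      · simp
    rw [h2]
    ring
  rw [Finset.sum_congr rfl h1, Finset.sum_sub_distrib]
  congr 1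
  rw [Finset.sum_range_succ', Finset.sum_range_succ (n := m)]
  rw [Nat.choose_eq_zero_of_lt (show m < m + 2 by omega)]
  simp only [if_true, mul_zero, zero_mul, Nat.cast_zero, add_zero]
  refine Finset.sum_congr rfl (fun k _ => ?_)
  rw [if_neg (by omega), Nat.add_sub_cancel]
  ring

/-! ### Delannoy and Schröder numbers -/

theorem sum_G (n s : ℕ) :
    ∑ j ∈ range (n + 1), (n.choose j : ℚ) * ((n + j).choose s : ℚ) =
      ∑ i ∈ range (s + 1), (n.choose i : ℚ) * (2 ^ (n - (s - i)) * (n.choose (s - i) : ℚ)) := by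
  have h1 : ((1 + X) ^ n * (X + C 2) ^ n : ℚ[X]).coeff s =
      ∑ i ∈ range (s + 1), (n.choose i : ℚ) * (2 ^ (n - (s - i)) * (n.choose (s - i) : ℚ)) := by
    rw [coeff_mul, Finset.Nat.sum_antidiagonal_eq_sum_range_succ_mk]
    refine Finset.sum_congr rfl (fun i _ => ?_)
    rw [coeff_one_add_X_pow, coeff_X_add_C_pow]
  have h2 : ((1 + X) ^ n * (X + C 2) ^ n : ℚ[X]) =
      ∑ j ∈ range (n + 1), C (n.choose j : ℚ) * (1 + X) ^ (n + j) := by
    have e : (X + C 2 : ℚ[X]) = (1 + X) + 1 := by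
      have : (C 2 : ℚ[X]) = 2 := map_ofNat C 2
      rw [this]
      ring
    rw [e, add_pow (1 + X : ℚ[X]) 1 n, Finset.mul_sum]
    refine Finset.sum_congr rfl (fun j _ => ?_)
    rw [map_natCast]
    ring
  rw [← h1, h2, finsetSum_coeff]
  refine Finset.sum_congr rfl (fun j _ => ?_)
  rw [coeff_C_mul, coeff_one_add_X_pow]

theorem del_moment (m : ℕ) : delannoy m = Lf 3 2 1 (X ^ m) := by
  have e : (xx 3 2 : LaurentPolynomial ℚ) = xx (1 + 2) 2 := by norm_num
  rw [Lf_apply, map_pow, aeval_X, e, ← mo_one, ct_xx0]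
  unfold delannoy
  have h1 : ∀ k ∈ range (m + 1), (m.choose k : ℚ) * ((m + k).choose k : ℚ) =
      (m.choose k : ℚ) * ((m + k).choose m : ℚ) := by
    intro k _
    rw [Nat.choose_symm_add]
  rw [Finset.sum_congr rfl h1, sum_G]
  refine Finset.sum_congr rfl (fun i hi => ?_)
  have hi' : i ≤ m := by rw [mem_range] at hi; omega
  rw [Nat.choose_symm hi', show m - (m - i) = i by omega]
  ring

theorem sch_term (m k : ℕ) (hk : k ≤ m + 1) :
    ((m + 1 + k).choose (2 * k) : ℚ) * cat k =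
      (1 / ((m + 1 : ℕ) : ℚ)) * (((m + 1).choose k : ℚ) * ((m + 1 + k).choose m : ℚ)) := by
  unfold cat
  have h1 : ((m + 1 + k).choose (2 * k) : ℚ) * ((2 * k).choose k : ℚ) =
      ((m + 1 + k).choose k : ℚ) * ((m + 1).choose k : ℚ) := by
    have := Nat.choose_mul (n := m + 1 + k) (k := 2 * k) (s := k) (by omega)
    rw [show m + 1 + k - k = m + 1 by omega, show 2 * k - k = k by omega] at this
    exact_mod_cast this
  have h2 : ((m + 1 + k).choose m : ℚ) = ((m + 1 + k).choose (k + 1) : ℚ) := by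
    rw [Nat.choose_symm_of_eq_add (show m + 1 + k = m + (k + 1) by ring)]
  have h3 := choose_rel (m + 1 + k) k
  rw [h2]
  have hk1 : ((k : ℚ) + 1) ≠ 0 := by positivity
  have hm1 : ((m : ℚ) + 1) ≠ 0 := by positivity
  push_cast at h3 ⊢
  have h4 : ((m + 1 + k).choose (k + 1) : ℚ) = ((m + 1 + k).choose k : ℚ) * (m + 1) / (k + 1) := by
    rw [eq_div_iff hk1, h3]
    ring
  rw [h4]
  have h5 : ((m + 1 + k).choose (2 * k) : ℚ) * (1 / ((k : ℚ) + 1) * ((2 * k).choose k : ℚ)) =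
      (((m + 1 + k).choose (2 * k) : ℚ) * ((2 * k).choose k : ℚ)) / (k + 1) := by ring
  rw [h5, h1]
  field_simp

theorem sch_nar (m : ℕ) : schroder (m + 1) = Polynomial.aeval (2 : ℚ) (narayana (m + 1)) := by
  unfold schroder narayana
  rw [if_neg (by omega), map_sum]
  have h1 : ∀ k ∈ range (m + 1 + 1), ((m + 1 + k).choose (2 * k) : ℚ) * cat k =
      (1 / ((m + 1 : ℕ) : ℚ)) * (((m + 1).choose k : ℚ) * ((m + 1 + k).choose m : ℚ)) := by
    intro k hk
    exact sch_term m k (by rw [mem_range] at hk; omega)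
  rw [Finset.sum_congr rfl h1, ← Finset.mul_sum, sum_G]
  conv_rhs => rw [Finset.sum_range_succ']
  have h0 : (Polynomial.aeval (2 : ℚ)) (C ((1 / ((m + 1 : ℕ) : ℚ)) * ((m + 1).choose 0 : ℚ) *
      (if (0 : ℕ) = 0 then 0 else (((m + 1).choose (0 - 1) : ℕ) : ℚ))) * X ^ 0) = 0 := by
    simp
  rw [h0, add_zero, Finset.mul_sum]
  refine Finset.sum_congr rfl (fun i hi => ?_)
  have hi' : i ≤ m := by rw [mem_range] at hi; omega
  rw [if_neg (by omega), Nat.add_sub_cancel, map_mul, aeval_C, map_pow, aeval_X,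
    show m + 1 - (m - i) = i + 1 by omega,
    Nat.choose_symm_of_eq_add (show m + 1 = (m - i) + (i + 1) by omega)]
  simp only [eq_ratCast, Rat.cast_id]
  ring

theorem sch_moment (m : ℕ) : schroder (m + 1) = Lf 3 2 (wt 2 2) (X ^ m) := by
  rw [sch_nar, nar_moment]
  norm_num

/-! ### Motzkin numbers -/

theorem pow_y {K : Type*} [CommRing K] (j : ℕ) :
    ((mo 1 1 + mo 1 (-1)) ^ j : LaurentPolynomial K) =
      ∑ i ∈ range (j + 1), mo (j.choose i : K) (2 * i - j) := by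
  rw [add_pow]
  refine Finset.sum_congr rfl (fun i hi => ?_)
  have hi' : i ≤ j := by rw [mem_range] at hi; omega
  rw [mo_pow, mo_pow, mo_mul]
  have : ((j.choose i : ℕ) : LaurentPolynomial K) = mo (j.choose i : K) 0 := by
    rw [mo_zero, map_natCast]
  rw [this, mo_mul]
  congr 1
  · simp
  · push_cast [Nat.cast_sub hi']
    ring

theorem ct_y (j : ℕ) (s : ℤ) (b : ℚ) :
    ct ((mo 1 1 + mo 1 (-1)) ^ j * mo b s : LaurentPolynomial ℚ) =
      ∑ i ∈ range (j + 1), if (2 * i - j + s : ℤ) = 0 then (j.choose i : ℚ) * b else 0 := by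
  rw [pow_y, Finset.sum_mul, map_sum]
  refine Finset.sum_congr rfl (fun i _ => ?_)
  rw [mo_mul, ct_mo]

theorem cat_eq (k : ℕ) : cat k = ((2 * k).choose k : ℚ) - ((2 * k).choose (k + 1) : ℚ) := by
  have h := choose_rel (2 * k) k
  unfold cat
  push_cast at h
  have hk1 : ((k : ℚ) + 1) ≠ 0 := by positivity
  have h4 : ((2 * k).choose (k + 1) : ℚ) = ((2 * k).choose k : ℚ) * k / (k + 1) := by
    rw [eq_div_iff hk1, h]
    ring
  rw [h4]
  field_simp
  ring

theorem ct_y_odd (k : ℕ) :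
    ct ((mo 1 1 + mo 1 (-1)) ^ (2 * k + 1) * wt 1 1 : LaurentPolynomial ℚ) = 0 := by
  have hw : (wt 1 1 : LaurentPolynomial ℚ) = mo 1 0 - mo 1 (-2) := by
    unfold wt
    rw [sub_mul, mo_mul, mo_mul]
    norm_num
  rw [hw, mul_sub, map_sub, ct_y, ct_y, Finset.sum_eq_zero, Finset.sum_eq_zero, sub_zero]
  · intro i _
    rw [if_neg]
    push_cast
    omega
  · intro i _
    rw [if_neg]
    push_cast
    omega

theorem ct_y_even (k : ℕ) :
    ct ((mo 1 1 + mo 1 (-1)) ^ (2 * k) * wt 1 1 : LaurentPolynomial ℚ) = cat k := by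
  have hw : (wt 1 1 : LaurentPolynomial ℚ) = mo 1 0 - mo 1 (-2) := by
    unfold wt
    rw [sub_mul, mo_mul, mo_mul]
    norm_num
  rw [hw, mul_sub, map_sub, ct_y, ct_y, cat_eq]
  have h1 : ∀ i : ℕ, (2 * (i : ℤ) - ((2 * k : ℕ) : ℤ) + 0 = 0) ↔ i = k := fun i => by
    push_cast; omega
  have h2 : ∀ i : ℕ, (2 * (i : ℤ) - ((2 * k : ℕ) : ℤ) + -2 = 0) ↔ i = k + 1 := fun i => by
    push_cast; omega
  simp only [h1, h2]
  rw [Finset.sum_ite_eq' (range (2 * k + 1)) k, Finset.sum_ite_eq' (range (2 * k + 1)) (k + 1),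
    if_pos (by rw [mem_range]; omega), mul_one]
  by_cases h : k + 1 ∈ range (2 * k + 1)
  · rw [if_pos h, mul_one]
  · have h3 : 2 * k < k + 1 := by
      rw [mem_range] at h
      omega
    rw [if_neg h, Nat.choose_eq_zero_of_lt h3]
    simp

theorem sum_two_mul (f : ℕ → ℚ) (n : ℕ) :
    ∑ j ∈ range (2 * n), f j = ∑ k ∈ range n, (f (2 * k) + f (2 * k + 1)) := by
  induction n with
  | zero => simp
  | succ n ih =>
    rw [Finset.sum_range_succ, ← ih, show 2 * (n + 1) = 2 * n + 1 + 1 by ring,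
      Finset.sum_range_succ, Finset.sum_range_succ]
    ring

theorem mot_moment (m : ℕ) : motzkin m = Lf 1 1 (wt 1 1) (X ^ m) := by
  rw [Lf_apply, map_pow, aeval_X]
  have e : (xx 1 1 : LaurentPolynomial ℚ) = (mo 1 1 + mo 1 (-1)) + 1 := by
    unfold xx
    rw [mo_one]
    ring
  rw [e, add_pow, Finset.sum_mul, map_sum]
  have h1 : ∀ j ∈ range (m + 1),
      ct ((mo 1 1 + mo 1 (-1)) ^ j * 1 ^ (m - j) * (m.choose j : LaurentPolynomial ℚ) * wt 1 1) =
        (m.choose j : ℚ) * ct ((mo 1 1 + mo 1 (-1)) ^ j * wt 1 1) := by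
    intro j _
    have e2 : ((mo 1 1 + mo 1 (-1)) ^ j * 1 ^ (m - j) * (m.choose j : LaurentPolynomial ℚ) *
        wt 1 1) = (m.choose j : ℚ) • ((mo 1 1 + mo 1 (-1)) ^ j * wt 1 1) := by
      rw [LaurentPolynomial.smul_eq_C_mul, map_natCast, one_pow]
      ring
    rw [e2, map_smul, smul_eq_mul]
  rw [Finset.sum_congr rfl h1]
  have h2 : ∑ j ∈ range (m + 1), (m.choose j : ℚ) * ct ((mo 1 1 + mo 1 (-1)) ^ j * wt 1 1) =
      ∑ j ∈ range (2 * (m + 1)), (m.choose j : ℚ) * ct ((mo 1 1 + mo 1 (-1)) ^ j * wt 1 1) := by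
    refine Finset.sum_subset ?_ ?_
    · intro j hj
      rw [mem_range] at hj ⊢
      omega
    · intro j _ hj
      rw [mem_range] at hj
      rw [Nat.choose_eq_zero_of_lt (by omega)]
      simp
  rw [h2, sum_two_mul]
  unfold motzkin
  refine Finset.sum_congr rfl (fun k _ => ?_)
  rw [ct_y_odd, ct_y_even]
  ring

end Pool.Agent.Helper26_Pf
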