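import Pool.Agent.Helper26_Pf.Basic

/-!
# Pfaffians of Hankel-type matrices by skew-orthogonal polynomials
-/

set_option autoImplicit false

namespace Pool.Agent.Helper26_Pf

open Equiv Equiv.Perm Finset Polynomial

/-- The Pfaffian of a `2n × 2n` matrix `A` over a commutative `ℚ`-algebra:
`1 / (2^n n!) * ∑_σ sgn σ * ∏_{i < n} A (σ (2i)) (σ (2i+1))`, with rows and columns numbered
from `0`. -/
noncomputable def pf {K : Type*} [CommRing K] [Algebra ℚ K] (n : ℕ)
    (A : Matrix (Fin (2 * n)) (Fin (2 * n)) K) : K :=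
  ((2 ^ n * n.factorial : ℚ)⁻¹) • ∑ σ : Equiv.Perm (Fin (2 * n)),
    ((Equiv.Perm.sign σ : ℤ) : K) *
      ∏ i : Fin n, A (σ ⟨2 * i.1, by omega⟩) (σ ⟨2 * i.1 + 1, by omega⟩)

/-- The index `2k+b`. -/
def idx {n : ℕ} (a : Fin n × Fin 2) : ℕ := 2 * a.1.1 + a.2.1

/-- The equivalence `(k, b) ↦ 2k+b`. -/
def eqv (n : ℕ) : Fin n × Fin 2 ≃ Fin (2 * n) :=
  finProdFinEquiv.trans (finCongr (Nat.mul_comm n 2))

theorem eqv_val {n : ℕ} (a : Fin n × Fin 2) : (eqv n a : ℕ) = idx a := by
  show (a.2.1 + 2 * a.1.1 : ℕ) = _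
  unfold idx
  omega

theorem sum_perm_eq {K : Type*} [CommRing K] (n : ℕ) (A : Fin (2 * n) → Fin (2 * n) → K) :
    ∑ σ : Equiv.Perm (Fin (2 * n)), ((Equiv.Perm.sign σ : ℤ) : K) *
      ∏ i : Fin n, A (σ ⟨2 * i.1, by omega⟩) (σ ⟨2 * i.1 + 1, by omega⟩) =
    ∑ τ : Equiv.Perm (Fin n × Fin 2), ((Equiv.Perm.sign τ : ℤ) : K) *
      ∏ i : Fin n, A (eqv n (τ (i, 0))) (eqv n (τ (i, 1))) := by
  rw [← Equiv.sum_comp (eqv n).permCongr]
  refine Finset.sum_congr rfl (fun τ _ => ?_)
  rw [sign_permCongr]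
  congr 1
  refine Finset.prod_congr rfl (fun i _ => ?_)
  have h0 : (eqv n).symm ⟨2 * i.1, by omega⟩ = (i, 0) := by
    rw [Equiv.symm_apply_eq]
    apply Fin.ext
    rw [eqv_val]
    rfl
  have h1 : (eqv n).symm ⟨2 * i.1 + 1, by omega⟩ = (i, 1) := by
    rw [Equiv.symm_apply_eq]
    apply Fin.ext
    rw [eqv_val]
    rfl
  rw [Equiv.permCongr_apply, Equiv.permCongr_apply, h0, h1]

theorem ps_monic {K : Type*} [CommRing K] (n : ℕ) (B : K[X] →ₗ[K] K[X] →ₗ[K] K) (q : ℕ → K[X])
    (hm : ∀ i, (q i).Monic) (hd : ∀ i, (q i).natDegree = i) :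
    ps n B (fun a => q (idx a)) = ps n B (fun a => X ^ (idx a)) := by
  classical
  rw [ps_eq_alt, ps_eq_alt]
  set f := MultilinearMap.alternatization (mm n B) with hf
  let Φ : ((Fin n × Fin 2) → K) →ₗ[K] K[X] :=
    Fintype.linearCombination K (fun a : Fin n × Fin 2 => (X : K[X]) ^ (idx a))
  have hΦ : ∀ c, Φ c = ∑ a, c a • (X : K[X]) ^ (idx a) := fun c => rfl
  set g := f.compLinearMap Φ with hg
  have hdet := AlternatingMap.eq_smul_basis_det (Pi.basisFun K (Fin n × Fin 2)) g
  let R : (Fin n × Fin 2) → (Fin n × Fin 2) → K := fun a b => (q (idx a)).coeff (idx b)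
  have h1 : g R = f (fun a => q (idx a)) := by
    show f (fun a => Φ (R a)) = _
    congr 1
    funext a
    rw [hΦ]
    have hlt : (q (idx a)).natDegree < 2 * n := by
      rw [hd]
      unfold idx
      have := a.1.2
      have := a.2.2
      omega
    conv_rhs => rw [(q (idx a)).as_sum_range_C_mul_X_pow' hlt]
    rw [← Fin.sum_univ_eq_sum_range (fun i => C ((q (idx a)).coeff i) * (X : K[X]) ^ i),
      ← Equiv.sum_comp (eqv n)]
    refine Finset.sum_congr rfl (fun b _ => ?_)
    rw [eqv_val, ← smul_eq_C_mul]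
  have h2 : g (Pi.basisFun K (Fin n × Fin 2)) = f (fun a => X ^ (idx a)) := by
    show f (fun a => Φ (Pi.basisFun K (Fin n × Fin 2) a)) = _
    congr 1
    funext a
    rw [hΦ, Finset.sum_eq_single a]
    · simp
    · intro b _ hb
      simp [hb]
    · simp
  have h3 : (Pi.basisFun K (Fin n × Fin 2)).det R = 1 := by
    rw [Pi.basisFun_det_apply]
    have := Matrix.det_matrixOfPolynomials (fun i : Fin (2 * n) => q i) (fun i => hd i)
      (fun i => hm i)
    rw [← Matrix.det_transpose, ← Matrix.det_submatrix_equiv_self (eqv n)] at this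
    rw [← this]
    congr 1
    ext a b
    simp [R, Matrix.transpose_apply, eqv_val]
  have h4 : g R = g (Pi.basisFun K (Fin n × Fin 2)) * (Pi.basisFun K (Fin n × Fin 2)).det R := by
    conv_lhs => rw [hdet]
    rfl
  rw [← h1, h4, h3, mul_one, h2]

/-- The skew form `(f, g) ↦ L (f g' - f' g)`. -/
noncomputable def bf {K : Type*} [CommRing K] (L : K[X] →ₗ[K] K) : K[X] →ₗ[K] K[X] →ₗ[K] K :=
  LinearMap.mk₂ K (fun f g => L (f * derivative g - derivative f * g))
    (fun f f' g => by rw [← map_add]; congr 1; rw [derivative_add]; ring)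
    (fun c f g => by rw [← map_smul]; congr 1; simp [smul_sub])
    (fun f g g' => by rw [← map_add]; congr 1; rw [derivative_add]; ring)
    (fun c f g => by rw [← map_smul]; congr 1; simp [smul_sub])

theorem bf_apply {K : Type*} [CommRing K] (L : K[X] →ₗ[K] K) (f g : K[X]) :
    bf L f g = L (f * derivative g - derivative f * g) := rfl

theorem bf_swap {K : Type*} [CommRing K] (L : K[X] →ₗ[K] K) (f g : K[X]) :
    bf L f g = - bf L g f := by
  rw [bf_apply, bf_apply, ← map_neg]
  congr 1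
  ring

theorem bf_self {K : Type*} [CommRing K] (L : K[X] →ₗ[K] K) (f : K[X]) : bf L f f = 0 := by
  rw [bf_apply, mul_comm, sub_self, map_zero]

/-- Evaluation with a skew-orthogonal basis. -/
theorem ps_block {K : Type*} [CommRing K] (n : ℕ) (L : K[X] →ₗ[K] K) (q : ℕ → K[X]) (c : ℕ → K)
    (h00 : ∀ k l, bf L (q (2 * k)) (q (2 * l)) = 0)
    (h11 : ∀ k l, bf L (q (2 * k + 1)) (q (2 * l + 1)) = 0)
    (h01 : ∀ k l, bf L (q (2 * k)) (q (2 * l + 1)) = if k = l then c k else 0) :
    ps n (bf L) (fun a => q (idx a)) = (2 ^ n * n.factorial : ℕ) * ∏ k ∈ range n, c k := by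
  rw [← Fin.prod_univ_eq_prod_range]
  refine sum_block n (fun i => c i) (fun a b => bf L (q (idx a)) (q (idx b))) ?_ ?_ ?_ ?_
  · intro k l
    have := h01 k l
    simp only [idx, Fin.val_zero, Fin.val_one, add_zero, Fin.ext_iff]
    exact this
  · intro k l
    have := h01 k l
    simp only [idx, Fin.val_zero, Fin.val_one, add_zero, Fin.ext_iff]
    rw [bf_swap, this]
    split <;> simp
  · intro k l
    simp only [idx, Fin.val_zero, add_zero]
    exact h00 k l
  · intro k l
    simp only [idx, Fin.val_one]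
    exact h11 k l

/-- The even members of the skew-orthogonal basis. -/
noncomputable def ev {K : Type*} [CommRing K] (q : ℕ → K[X]) (r : ℕ → K) : ℕ → K[X]
  | 0 => q 0
  | (k + 1) => q (2 * (k + 1)) + C (r k) * ev q r k

/-- The skew-orthogonal basis. -/
noncomputable def qt {K : Type*} [CommRing K] (q : ℕ → K[X]) (r : ℕ → K) (m : ℕ) : K[X] :=
  if m % 2 = 0 then ev q r (m / 2) else q m

theorem qt_even {K : Type*} [CommRing K] (q : ℕ → K[X]) (r : ℕ → K) (k : ℕ) :
    qt q r (2 * k) = ev q r k := by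
  unfold qt
  rw [if_pos (by omega)]
  congr 1
  omega

theorem qt_odd {K : Type*} [CommRing K] (q : ℕ → K[X]) (r : ℕ → K) (k : ℕ) :
    qt q r (2 * k + 1) = q (2 * k + 1) := by
  unfold qt
  rw [if_neg (by omega)]

theorem ev_monic {K : Type*} [CommRing K] [Nontrivial K] (q : ℕ → K[X]) (r : ℕ → K)
    (hm : ∀ i, (q i).Monic) (hd : ∀ i, (q i).natDegree = i) (k : ℕ) :
    (ev q r k).Monic ∧ (ev q r k).natDegree = 2 * k := by
  induction k with
  | zero => exact ⟨hm 0, hd 0⟩
  | succ k ih =>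
    have h1 : (C (r k) * ev q r k).natDegree < (q (2 * (k + 1))).natDegree := by
      rw [hd]
      refine lt_of_le_of_lt (natDegree_C_mul_le _ _) ?_
      rw [ih.2]
      omega
    have h2 : (C (r k) * ev q r k).degree < (q (2 * (k + 1))).degree :=
      degree_lt_degree h1
    refine ⟨(hm _).add_of_left h2, ?_⟩
    show (q (2 * (k + 1)) + C (r k) * ev q r k).natDegree = _
    rw [natDegree_add_eq_left_of_natDegree_lt h1, hd]

/-- Evaluation from a tridiagonal basis. -/
theorem ps_tri {K : Type*} [CommRing K] [Nontrivial K] (n : ℕ) (L : K[X] →ₗ[K] K) (q : ℕ → K[X])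
    (c r : ℕ → K) (hm : ∀ i, (q i).Monic) (hd : ∀ i, (q i).natDegree = i)
    (h0 : ∀ i j, i + 1 < j → bf L (q i) (q j) = 0)
    (h1 : ∀ k, bf L (q (2 * k)) (q (2 * k + 1)) = c k)
    (h2 : ∀ k, bf L (q (2 * k + 1)) (q (2 * (k + 1))) = r k * c k) :
    ps n (bf L) (fun a => X ^ (idx a)) = (2 ^ n * n.factorial : ℕ) * ∏ k ∈ range n, c k := by
  have hz : ∀ i j, i + 1 < j → bf L (q j) (q i) = 0 := fun i j h => by
    rw [bf_swap, h0 i j h, neg_zero]
  have hee : ∀ k l, bf L (q (2 * k)) (q (2 * l)) = 0 := by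
    intro k l
    rcases lt_trichotomy k l with h | h | h
    · exact h0 _ _ (by omega)
    · rw [h, bf_self]
    · exact hz _ _ (by omega)
  have hoo : ∀ k l, bf L (q (2 * k + 1)) (q (2 * l + 1)) = 0 := by
    intro k l
    rcases lt_trichotomy k l with h | h | h
    · exact h0 _ _ (by omega)
    · rw [h, bf_self]
    · exact hz _ _ (by omega)
  have hqe : ∀ k l, bf L (q (2 * k)) (ev q r l) = 0 := by
    intro k l
    induction l with
    | zero => exact hee k 0
    | succ l ih =>
      show bf L (q (2 * k)) (q (2 * (l + 1)) + C (r l) * ev q r l) = 0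
      rw [map_add, hee, ← smul_eq_C_mul, map_smul, ih]
      simp
  have hEE : ∀ k l, bf L (ev q r k) (ev q r l) = 0 := by
    intro k l
    induction k with
    | zero => exact hqe 0 l
    | succ k ih =>
      show bf L (q (2 * (k + 1)) + C (r k) * ev q r k) (ev q r l) = 0
      rw [map_add, LinearMap.add_apply, hqe, ← smul_eq_C_mul, map_smul, LinearMap.smul_apply, ih]
      simp
  have hEO : ∀ k l, bf L (ev q r k) (q (2 * l + 1)) = if k = l then c k else 0 := by
    intro k l
    induction k with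
    | zero =>
      show bf L (q (2 * 0)) (q (2 * l + 1)) = _
      by_cases h : 0 = l
      · rw [← h, h1, if_pos rfl]
      · rw [if_neg h, h0 _ _ (by omega)]
    | succ k ih =>
      show bf L (q (2 * (k + 1)) + C (r k) * ev q r k) (q (2 * l + 1)) = _
      rw [map_add, LinearMap.add_apply, ← smul_eq_C_mul, map_smul, LinearMap.smul_apply, ih]
      rcases lt_trichotomy (k + 1) l with h | h | h
      · rw [h0 _ _ (by omega), if_neg (by omega), if_neg (by omega)]
        simp
      · rw [← h, h1, if_neg (by omega), if_pos rfl]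
        simp
      · rw [if_neg (by omega : ¬ (k + 1 = l))]
        by_cases hk : k = l
        · rw [← hk, bf_swap, h2, if_pos rfl]
          simp
        · rw [if_neg hk, hz _ _ (by omega)]
          simp
  have hmon : ∀ i, (qt q r i).Monic ∧ (qt q r i).natDegree = i := by
    intro i
    rcases Nat.even_or_odd' i with ⟨k, rfl | rfl⟩
    · rw [qt_even]
      exact ev_monic q r hm hd k
    · rw [qt_odd]
      exact ⟨hm _, hd _⟩
  rw [← ps_monic n (bf L) (qt q r) (fun i => (hmon i).1) (fun i => (hmon i).2)]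
  refine ps_block n L (qt q r) c ?_ ?_ ?_
  · intro k l
    rw [qt_even, qt_even, hEE]
  · intro k l
    rw [qt_odd, qt_odd, hoo]
  · intro k l
    rw [qt_even, qt_odd, hEO]

/-- The Pfaffian of `((j - i) * L (X ^ (i + j - 1)))`. -/
theorem pf_hankel {K : Type*} [CommRing K] [Algebra ℚ K] [Nontrivial K] (n : ℕ)
    (L : K[X] →ₗ[K] K) (q : ℕ → K[X])
    (c r : ℕ → K) (hm : ∀ i, (q i).Monic) (hd : ∀ i, (q i).natDegree = i)
    (h0 : ∀ i j, i + 1 < j → bf L (q i) (q j) = 0)
    (h1 : ∀ k, bf L (q (2 * k)) (q (2 * k + 1)) = c k)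
    (h2 : ∀ k, bf L (q (2 * k + 1)) (q (2 * (k + 1))) = r k * c k)
    (A : Matrix (Fin (2 * n)) (Fin (2 * n)) K)
    (hA : ∀ i j, A i j = (((j : ℕ) : K) - ((i : ℕ) : K)) * L (X ^ ((i : ℕ) + (j : ℕ) - 1))) :
    pf n A = ∏ k ∈ range n, c k := by
  have hA' : ∀ i j : Fin (2 * n), A i j = bf L (X ^ (i : ℕ)) (X ^ (j : ℕ)) := by
    intro i j
    rw [hA, bf_apply]
    rcases i with ⟨i, hi⟩
    rcases j with ⟨j, hj⟩
    simp only
    rw [derivative_X_pow, derivative_X_pow]
    rcases Nat.eq_zero_or_pos i with h | h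
    · subst h
      rcases Nat.eq_zero_or_pos j with h' | h'
      · subst h'
        simp
      · simp only [Nat.cast_zero, sub_zero, zero_add, pow_zero, one_mul, map_zero, zero_mul]
        rw [← smul_eq_C_mul, map_smul, smul_eq_mul]
    · rcases Nat.eq_zero_or_pos j with h' | h'
      · subst h'
        simp only [Nat.cast_zero, zero_sub, add_zero, pow_zero, mul_one, map_zero, zero_mul,
          mul_zero]
        rw [map_neg, ← smul_eq_C_mul, map_smul, smul_eq_mul]
        ring
      · have e1 : (X : K[X]) ^ i * (C (j : K) * X ^ (j - 1)) = (j : K) • X ^ (i + j - 1) := by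
          rw [smul_eq_C_mul, show i + j - 1 = i + (j - 1) by omega, pow_add]
          ring
        have e2 : (C (i : K) * (X : K[X]) ^ (i - 1)) * X ^ j = (i : K) • X ^ (i + j - 1) := by
          rw [smul_eq_C_mul, show i + j - 1 = (i - 1) + j by omega, pow_add]
          ring
        rw [e1, e2, map_sub, map_smul, map_smul, smul_eq_mul, smul_eq_mul]
        ring
  unfold pf
  rw [sum_perm_eq n A]
  have h3 : ∑ τ : Equiv.Perm (Fin n × Fin 2), ((Equiv.Perm.sign τ : ℤ) : K) *
      ∏ i : Fin n, A (eqv n (τ (i, 0))) (eqv n (τ (i, 1))) = ps n (bf L) (fun a => X ^ (idx a)) := by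
    unfold ps
    refine Finset.sum_congr rfl (fun τ _ => ?_)
    congr 1
    refine Finset.prod_congr rfl (fun i _ => ?_)
    rw [hA', eqv_val, eqv_val]
  rw [h3, ps_tri n L q c r hm hd h0 h1 h2]
  have h4 : (((2 ^ n * n.factorial : ℕ) : K)) = (2 ^ n * n.factorial : ℚ) • (1 : K) := by
    have h5 : (2 ^ n * n.factorial : ℚ) = ((2 ^ n * n.factorial : ℕ) : ℚ) := by push_cast; rfl
    rw [h5, Nat.cast_smul_eq_nsmul, nsmul_eq_mul, mul_one]
  rw [h4, smul_mul_assoc, one_mul, smul_smul, inv_mul_cancel₀, one_smul]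
  positivity

end Pool.Agent.Helper26_Pf
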